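import Mathlib
import Pool.Agent.MP_026d7f_an.Defs
import Pool.Agent.MP_026d7f_an.Mg.H2_Small

namespace Pool.Agent.Results.MP_026d7f_an.ExactFourFive

open Pool.Agent.MP_026d7f_an

/-- For `n = 4` and `n = 5` the largest number of hyperplanes with relative projection constant
`2 - 2/n` in an `n`-dimensional real normed space is `2 ^ (n - 1)`. -/
theorem result (n : ℕ) (hn : n = 4 ∨ n = 5) :
    (∀ (X : Type) [NormedAddCommGroup X] [NormedSpace ℝ X] [FiniteDimensional ℝ X],
      Module.finrank ℝ X = n →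
      {Y : Submodule ℝ X | Module.finrank ℝ Y = n - 1 ∧ projConst Y = 2 - 2 / (n : ℝ)}.encard ≤
        2 ^ (n - 1)) ∧
    ∃ (X : Type) (_ : NormedAddCommGroup X) (_ : NormedSpace ℝ X) (_ : FiniteDimensional ℝ X),
      Module.finrank ℝ X = n ∧
      {Y : Submodule ℝ X | Module.finrank ℝ Y = n - 1 ∧ projConst Y = 2 - 2 / (n : ℝ)}.encard =
        2 ^ (n - 1) := by
  refine ⟨fun X _ _ _ hX => H2.encard_le hn hX, ?_⟩
  obtain ⟨m, rfl⟩ : ∃ m, n = m + 1 := ⟨n - 1, by omega⟩
  exact ⟨Fin (m + 1) → ℝ, inferInstance, inferInstance, inferInstance, Module.finrank_fin_fun ℝ,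
    le_antisymm (H2.encard_le hn (Module.finrank_fin_fun ℝ)) (H2.cube_ge (by omega))⟩

end Pool.Agent.Results.MP_026d7f_an.ExactFourFive
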