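import Mathlib
import Pool.Agent.MP_026d7f_an.Defs
import Pool.Agent.MP_026d7f_an.H9.Half

namespace Pool.Agent.Results.MP_026d7f_an.HalfExponent

open Pool.Agent.MP_026d7f_an

/-- In every real normed space of dimension `n ≥ 3` only finitely many hyperplanes have relative
projection constant `2 - 2/n`, and their number is at most `(5 √n log n)^n`. -/
theorem result (n : ℕ) (hn : 3 ≤ n) (X : Type*) [NormedAddCommGroup X] [NormedSpace ℝ X]
    [FiniteDimensional ℝ X] (hX : Module.finrank ℝ X = n) :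
    {Y : Submodule ℝ X | Module.finrank ℝ Y = n - 1 ∧ projConst Y = 2 - 2 / (n : ℝ)}.Finite ∧
    (({Y : Submodule ℝ X | Module.finrank ℝ Y = n - 1 ∧ projConst Y = 2 - 2 / (n : ℝ)}.ncard : ℕ) : ℝ)
      ≤ (5 * Real.sqrt n * Real.log n) ^ n := by
  have hfin : {Y : Submodule ℝ X |
      Module.finrank ℝ Y = n - 1 ∧ projConst Y = 2 - 2 / (n : ℝ)}.Finite := by
    by_contra hinf
    obtain ⟨k, hk⟩ := exists_nat_gt ((5 * Real.sqrt n * Real.log n) ^ n)
    obtain ⟨T, hT, hcard⟩ := Set.Infinite.exists_subset_card_eq hinf k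
    have := H9.finset_bound_half hn hX T (fun Y hY => hT hY)
    rw [hcard] at this
    linarith
  refine ⟨hfin, ?_⟩
  rw [Set.ncard_eq_toFinset_card _ hfin]
  exact H9.finset_bound_half hn hX _ (fun Y hY => by simpa using hY)

end Pool.Agent.Results.MP_026d7f_an.HalfExponent
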