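import Mathlib
import Pool.Agent.MP_026d7f_an.Defs
import Pool.Agent.MP_026d7f_an.Mg.H77_Main

namespace Pool.Agent.Results.MP_026d7f_an.SuperExponential

open Pool.Agent.MP_026d7f_an

/-- For every `c < 1/8` and all large `n` some `n`-dimensional real normed space has at least
`n ^ (c * n)` hyperplanes with relative projection constant `2 - 2/n`. -/
theorem result (c : ℝ) (hc : c < 1 / 8) : ∀ᶠ n : ℕ in Filter.atTop,
    ∃ (X : Type) (_ : NormedAddCommGroup X) (_ : NormedSpace ℝ X) (_ : FiniteDimensional ℝ X),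
      Module.finrank ℝ X = n ∧ ∃ T : Finset (Submodule ℝ X),
        (∀ Y ∈ T, Module.finrank ℝ Y = n - 1 ∧ projConst Y = 2 - 2 / (n : ℝ)) ∧
        (n : ℝ) ^ (c * n) ≤ T.card :=
  H77.main hc

end Pool.Agent.Results.MP_026d7f_an.SuperExponential
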